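import Pool.Agent.K3h22.EX.Stm4

/-!
# EX4 bricks SLOPE, TUBE, CONST
-/

set_option autoImplicit false

namespace Pool.Agent.K3h55.EX

open Pool.Agent.K3h22.EX

lemma slope_aux (g : Polynomial ℂ) (E : ℕ → ℝ) (K : ℝ) (t : ℂ) (M : ℝ) (ht : t ≠ 0)
    (h1 : ∀ k ∈ g.support, |Real.log ‖g.coeff k‖ - E k| ≤ K) (j k : ℕ) (hj : j ∈ g.support)
    (hk : k ∈ g.support) (hjk : j < k)
    (h : |Real.log (‖g.coeff j‖ * ‖t‖ ^ j) - Real.log (‖g.coeff k‖ * ‖t‖ ^ k)| ≤ M) :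
    |Real.log ‖t‖ - (E j - E k) / ((k : ℝ) - j)| ≤ 2 * K + M := by
  have ht' : 0 < ‖t‖ := norm_pos_iff.mpr ht
  have hgj : 0 < ‖g.coeff j‖ := norm_pos_iff.mpr (Polynomial.mem_support_iff.mp hj)
  have hgk : 0 < ‖g.coeff k‖ := norm_pos_iff.mpr (Polynomial.mem_support_iff.mp hk)
  rw [Real.log_mul hgj.ne' (pow_pos ht' j).ne', Real.log_mul hgk.ne' (pow_pos ht' k).ne',
    Real.log_pow, Real.log_pow] at h
  have hd : (1 : ℝ) ≤ (k : ℝ) - j := by
    have : (j : ℝ) + 1 ≤ k := by exact_mod_cast hjk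
    linarith
  have hd0 : (0 : ℝ) < (k : ℝ) - j := by linarith
  have h2 := h1 j hj
  have h3 := h1 k hk
  have e1 : Real.log ‖t‖ - (E j - E k) / ((k : ℝ) - j) =
      (((k : ℝ) - j) * Real.log ‖t‖ - (E j - E k)) / ((k : ℝ) - j) := by
    field_simp
  have e2 : |((k : ℝ) - j) * Real.log ‖t‖ - (E j - E k)| ≤ 2 * K + M := by
    rw [abs_le] at h h2 h3 ⊢
    constructor
    · nlinarith [h.1, h.2, h2.1, h2.2, h3.1, h3.2]
    · nlinarith [h.1, h.2, h2.1, h2.2, h3.1, h3.2]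
  rw [e1, abs_div, abs_of_pos hd0, div_le_iff₀ hd0]
  have hpos : 0 ≤ 2 * K + M := le_trans (abs_nonneg _) e2
  nlinarith

theorem t_SLOPE : S_SLOPE := by
  intro g E K t hK h1 h0 ht0
  have ht : t ≠ 0 := by
    intro h
    rw [h, ← Polynomial.coeff_zero_eq_eval_zero] at ht0
    exact h0 ht0
  refine ⟨ht, ?_⟩
  have ht' : 0 < ‖t‖ := norm_pos_iff.mpr ht
  have hne : g.support.Nonempty := ⟨0, Polynomial.mem_support_iff.mpr h0⟩
  obtain ⟨j0, hj0, hmax⟩ := Finset.exists_max_image g.support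
    (fun k => ‖g.coeff k‖ * ‖t‖ ^ k) hne
  have hwpos : ∀ k ∈ g.support, 0 < ‖g.coeff k‖ * ‖t‖ ^ k := fun k hk =>
    mul_pos (norm_pos_iff.mpr (Polynomial.mem_support_iff.mp hk)) (pow_pos ht' k)
  have hN : (0 : ℝ) < (g.natDegree : ℝ) + 1 := by positivity
  have hex : ∃ j1 ∈ g.support.erase j0,
      ‖g.coeff j0‖ * ‖t‖ ^ j0 ≤ ((g.natDegree : ℝ) + 1) * (‖g.coeff j1‖ * ‖t‖ ^ j1) := by
    by_contra hcon
    push Not at hcon
    have hsum : ∑ k ∈ g.support, g.coeff k * t ^ k = 0 := by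
      rw [Polynomial.eval_eq_sum, Polynomial.sum_def] at ht0
      exact ht0
    rw [← Finset.add_sum_erase _ _ hj0] at hsum
    have hle : ‖g.coeff j0‖ * ‖t‖ ^ j0 ≤
        ∑ k ∈ g.support.erase j0, ‖g.coeff k‖ * ‖t‖ ^ k := by
      have : g.coeff j0 * t ^ j0 = - ∑ k ∈ g.support.erase j0, g.coeff k * t ^ k :=
        eq_neg_of_add_eq_zero_left hsum
      calc ‖g.coeff j0‖ * ‖t‖ ^ j0 = ‖g.coeff j0 * t ^ j0‖ := by rw [norm_mul, norm_pow]
        _ = ‖∑ k ∈ g.support.erase j0, g.coeff k * t ^ k‖ := by rw [this, norm_neg]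
        _ ≤ ∑ k ∈ g.support.erase j0, ‖g.coeff k * t ^ k‖ := norm_sum_le _ _
        _ = _ := by simp only [norm_mul, norm_pow]
    have hle2 : ∑ k ∈ g.support.erase j0, ((g.natDegree : ℝ) + 1) * (‖g.coeff k‖ * ‖t‖ ^ k) ≤
        ∑ k ∈ g.support.erase j0, ‖g.coeff j0‖ * ‖t‖ ^ j0 :=
      Finset.sum_le_sum fun k hk => (hcon k hk).le
    rw [← Finset.mul_sum, Finset.sum_const, nsmul_eq_mul] at hle2
    have hcard : ((g.support.erase j0).card : ℝ) ≤ g.natDegree := by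
      have h5 : g.support.card ≤ g.natDegree + 1 := Polynomial.card_supp_le_succ_natDegree g
      have h6 := Finset.card_erase_of_mem hj0
      have : (g.support.erase j0).card ≤ g.natDegree := by omega
      exact_mod_cast this
    have hp := hwpos j0 hj0
    nlinarith
  obtain ⟨j1, hj1, hle⟩ := hex
  have hj1s := Finset.mem_of_mem_erase hj1
  have hne1 : j1 ≠ j0 := Finset.ne_of_mem_erase hj1
  have hlog : |Real.log (‖g.coeff j0‖ * ‖t‖ ^ j0) - Real.log (‖g.coeff j1‖ * ‖t‖ ^ j1)| ≤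
      Real.log ((g.natDegree : ℝ) + 1) := by
    have h2 := Real.log_le_log (hwpos j1 hj1s) (hmax j1 hj1s)
    have h3 := Real.log_le_log (hwpos j0 hj0) hle
    rw [Real.log_mul hN.ne' (hwpos j1 hj1s).ne'] at h3
    rw [abs_of_nonneg (by linarith)]
    linarith
  rcases lt_or_gt_of_ne hne1 with h | h
  · refine ⟨j1, hj1s, j0, hj0, h, slope_aux g E K t _ ht h1 j1 j0 hj1s hj0 h ?_⟩
    rw [abs_sub_comm]
    exact hlog
  · exact ⟨j0, hj0, j1, hj1s, h, slope_aux g E K t _ ht h1 j0 j1 hj0 hj1s h hlog⟩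

theorem t_TUBE : S_TUBE := by
  intro s K T F hK h
  choose! ε hε R₀ C hRC using h
  rcases K.eq_empty_or_nonempty with hE | hne
  · subst hE
    refine ⟨1, one_pos, 1, le_refl _, 0, le_refl _, ?_⟩
    intro R _ v hv
    rw [Metric.thickening_empty] at hv
    exact absurd hv (Set.notMem_empty v)
  obtain ⟨t, htK, hcov⟩ := hK.elim_nhds_subcover (fun ξ => Metric.ball ξ (ε ξ))
    (fun ξ hξ => Metric.ball_mem_nhds ξ (hε ξ hξ))
  have hopen : IsOpen (⋃ ξ ∈ t, Metric.ball ξ (ε ξ)) :=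
    isOpen_biUnion fun ξ _ => Metric.isOpen_ball
  obtain ⟨δ, hδ, hsub⟩ := hK.exists_thickening_subset_open hopen hcov
  have hR1 : ∃ R1 : ℝ, 1 ≤ R1 ∧ ∀ ξ ∈ t, R₀ ξ ≤ R1 := by
    obtain ⟨M, hM⟩ := (t.image R₀).bddAbove
    refine ⟨max 1 M, le_max_left _ _, fun ξ hξ => le_trans (hM ?_) (le_max_right _ _)⟩
    exact Finset.mem_coe.mpr (Finset.mem_image_of_mem _ hξ)
  have hC1 : ∃ C1 : ℝ, 0 ≤ C1 ∧ ∀ ξ ∈ t, C ξ ≤ C1 := by
    obtain ⟨M, hM⟩ := (t.image C).bddAbove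
    refine ⟨max 0 M, le_max_left _ _, fun ξ hξ => le_trans (hM ?_) (le_max_right _ _)⟩
    exact Finset.mem_coe.mpr (Finset.mem_image_of_mem _ hξ)
  obtain ⟨R1, hR1, hR1'⟩ := hR1
  obtain ⟨C1, hC1, hC1'⟩ := hC1
  refine ⟨δ, hδ, R1, hR1, C1, hC1, ?_⟩
  intro R hR v hv
  have hv' := hsub hv
  rw [Set.mem_iUnion₂] at hv'
  obtain ⟨ξ, hξ, hvξ⟩ := hv'
  obtain ⟨hT, hF⟩ := hRC ξ (htK ξ hξ) R (le_trans (hR1' ξ hξ) hR) v hvξ
  refine ⟨hT, hF.trans ?_⟩
  exact mul_le_mul_of_nonneg_right (hC1' ξ hξ) (Real.log_nonneg (hR1.trans hR))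

theorem t_CONST : S_CONST := by
  intro s U y κ _ S K hU hy hy0 hS hall hgap v₀ hv₀ j hj
  classical
  have := Fintype.ofFinite κ
  have hlog : ContinuousOn (fun v => Real.log ‖y v‖) U :=
    ContinuousOn.log hy.norm fun v hv => norm_ne_zero_iff.mpr (hy0 v hv)
  -- the function that is used to separate
  let A : κ → Set U := fun i => {v : U | |Real.log ‖y v‖ - S i v| ≤ K}
  have hAc : ∀ i, IsClosed (A i) := by
    intro i
    have h1 : Continuous fun v : U => |Real.log ‖y v‖ - S i v| :=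
      ((hlog.restrict).sub ((hS i).restrict)).abs
    exact isClosed_le h1 continuous_const
  let B : Set U := ⋃ i ∈ {i : κ | ∀ v ∈ U, 2 * K < |S i v - S j v|}, A i
  have hBc : IsClosed B := (Set.toFinite _).isClosed_biUnion fun i _ => hAc i
  have hAB : A j = Bᶜ := by
    ext v
    constructor
    · intro hv hvB
      rw [Set.mem_iUnion₂] at hvB
      obtain ⟨i, hi, hvi⟩ := hvB
      have h1 : |Real.log ‖y v‖ - S j v| ≤ K := hv
      have h2 : |Real.log ‖y v‖ - S i v| ≤ K := hvi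
      have h3 : 2 * K < |S i v - S j v| := hi v v.2
      have h4 : |S i v - S j v| ≤ |Real.log ‖y v‖ - S i v| + |Real.log ‖y v‖ - S j v| := by
        have : S i v - S j v = -(Real.log ‖y v‖ - S i v) + (Real.log ‖y v‖ - S j v) := by ring
        rw [this]
        refine (abs_add_le _ _).trans ?_
        rw [abs_neg]
      linarith
    · intro hv
      obtain ⟨i, hi⟩ := hall v v.2
      rcases hgap i j with h | h
      · show |Real.log ‖y v‖ - S j v| ≤ K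
        rw [← h v v.2]
        exact hi
      · exfalso
        apply hv
        rw [Set.mem_iUnion₂]
        exact ⟨i, h, hi⟩
  have hclopen : IsClopen (A j) := ⟨hAc j, by rw [hAB]; exact hBc.isOpen_compl⟩
  have hpre : PreconnectedSpace U := Subtype.preconnectedSpace hU
  have huniv : A j = Set.univ := hclopen.eq_univ ⟨⟨v₀, hv₀⟩, hj⟩
  intro v hv
  have : (⟨v, hv⟩ : U) ∈ A j := by rw [huniv]; exact Set.mem_univ _
  exact this

end Pool.Agent.K3h55.EX
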